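import Pool.Agent.H30.LdK

namespace Pool.Agent.Results.MP_e427d9_lc.Depth

open Pool.Agent.H30.Ld

theorem lin_le (K C : ℕ) : ∃ c, ∀ n, c ≤ n → 2 * (K * n + K + C) + 1 ≤ 2 ^ n := by
  have sq : ∀ n, 4 ≤ n → n * n ≤ 2 ^ n := by
    intro n hn
    induction n, hn using Nat.le_induction with
    | base => decide
    | succ n hn ih => rw [pow_succ]; nlinarith
  refine ⟨4 * K + 2 * C + 5, fun n hn => le_trans ?_ (sq n (by omega))⟩
  nlinarith [Nat.mul_le_mul_left n hn]

/-- The logical depth of a finite graph is not a computable function of its adjacency matrix. -/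
theorem result : ¬ ∃ f : List (List Bool) → ℕ, Computable f ∧
    ∀ (n : ℕ) (G : SimpleGraph (Fin n)) [DecidableRel G.Adj], f (adjM G) = depth G := by
  obtain ⟨M, Hlt, hre, hM⟩ := exists_mc
  obtain ⟨K, hK⟩ := dp_le (psi M)
  obtain ⟨c, hc⟩ := lin_le K (Nat.card (Co M.Q))
  refine reduction (0, can M 0 0) (psi M) K hK Hlt (fun a => Nat.pair a c)
    (Primrec₂.natPair.comp .id (.const c)) hre fun a => ?_
  obtain ⟨hH, H⟩ : ∃ hH, Hlt a → hB (Nat.pair a c) < hH ∧ (cf M (Nat.pair a c) hH).1 = M.h := by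
    by_cases h : Hlt a
    exacts [(halts_ev ((hM a c).2 h) _).imp fun _ h _ => h, ⟨0, fun h' => (h h').elim⟩]
  refine ⟨Vx M (Nat.pair a c) hH False, inferInstance, (GG M _ hH False).G,
    (md_iff _ _ _).2 ⟨_, _, GG_pal, GG_ax⟩, fun N X h => ?_, fun h =>
    ⟨Vx M (Nat.pair a c) hH True, inferInstance, (GG M _ hH True).G, ?_, fun φ hφ =>
      (ef (hc _ (Nat.right_le_pair a c)) (H h).1 (H h).2 φ hφ).1⟩⟩
  · obtain ⟨pal, col, h1, h2⟩ := (md_iff _ _ _).1 h
    exact (embed h1 h2).imp fun E hE nh => hE (mt (hM a c).1 nh)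
  · have f := (inferInstance : Finite (Vx M (Nat.pair a c) hH True))
    refine Set.Finite.card_lt_card f ⟨?_, fun e => (e (a := .N .H (0, 0))
      ⟨trivial, in0 (Nat.zero_le _)⟩).1⟩
    rintro (_ | _ | _ | ⟨_ | _ | _ | _, u⟩) h <;> first | exact h | exact h.1.elim

end Pool.Agent.Results.MP_e427d9_lc.Depth
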